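import Pool.Agent.Lib.MP_3523e7_pr.Compare

namespace Pool.Agent.Results.MP_3523e7_pr.CriticalRatioLimit

open Filter Topology Pool.Agent.Lib.MP_3523e7_pr

/-- For chase-escape with conversion on the square lattice, `λ_c(α) / α` converges to a positive
constant as `α → ∞`. -/
theorem result : ∃ C : ℝ, 0 < C ∧ Tendsto (fun a : ℝ => critRate a / a) atTop (𝓝 C) :=
  ⟨_, sSup_dieSet_pos, tendsto_critRate⟩

end Pool.Agent.Results.MP_3523e7_pr.CriticalRatioLimit
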